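import Pool.Agent.Helper32.LN6.Chi

/-!
# LN6 leaf Z (MP_730da0_ag): `b ≥ 0`, and `b = 0` makes all generators act in the same way
-/

open Finset

namespace LN6

open Chi

variable {k : ℕ} {Γ F : Type} [Group Γ] [MulAction Γ F] [Fintype F] {W : WSys k Γ F} {b : ℝ}

/-- all good pairs -/
noncomputable def WSys.allGood (W : WSys k Γ F) : Finset (F × F) := by
  classical
  exact univ.filter fun p => W.R p.1 p.2 ∧ p.1 ≠ p.2

theorem WSys.mem_allGood {p : F × F} : p ∈ W.allGood ↔ (W.R p.1 p.2 ∧ p.1 ≠ p.2) := by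
  classical
  unfold WSys.allGood
  simp

theorem WSys.gd_allGood : Gd W W.allGood := fun _ hp => WSys.mem_allGood.1 hp

theorem WSys.stb_allGood (g : Γ) : g ∈ stb (Γ := Γ) W.allGood := by
  intro p hp
  rw [WSys.mem_allGood] at hp ⊢
  refine ⟨W.R_smul g hp.1, fun h => hp.2 ?_⟩
  exact MulAction.injective g h

theorem WSys.Ax.card_mul (A : W.Ax b) :
    (W.allGood.card : ℝ) * b = (k : ℝ) * ((k : ℝ) - 1) * ∑ p ∈ W.allGood, W.v (W.s 0) p.1 p.2 := by
  have hk := A.k5
  have h := chi_B (W := W) (O := W.allGood) WSys.gd_allGood (n := k) le_rfl (by omega)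
    (fun g _ => WSys.stb_allGood g) k (by omega) le_rfl
  have h2 : chi W W.allGood (W.T k) = (W.allGood.card : ℝ) * b := by
    unfold chi
    rw [sum_congr rfl fun p hp => A.all p.1 p.2 (WSys.mem_allGood.1 hp).1 (WSys.mem_allGood.1 hp).2]
    simp
  rw [h2] at h
  exact h

/-- the total winding is nonnegative -/
theorem WSys.Ax.b_nonneg (A : W.Ax b) : 0 ≤ b := by
  have hk := A.k5
  obtain ⟨x, y, hR, hn, _⟩ := A.zero
  have hpos : 0 < (W.allGood.card : ℝ) := by
    exact_mod_cast card_pos.2 ⟨(x, y), WSys.mem_allGood.2 ⟨hR, hn⟩⟩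
  have h := A.card_mul
  have hs : 0 ≤ ∑ p ∈ W.allGood, W.v (W.s 0) p.1 p.2 :=
    sum_nonneg fun p hp => A.nonneg _ _ (WSys.mem_allGood.1 hp).1 (WSys.mem_allGood.1 hp).2
  have hk' : (5 : ℝ) ≤ (k : ℝ) := by exact_mod_cast hk
  have h3 : 0 ≤ (W.allGood.card : ℝ) * b := by
    rw [h]
    exact mul_nonneg (mul_nonneg (by linarith) (by linarith)) hs
  exact nonneg_of_mul_nonneg_right h3 hpos

theorem WSys.Ax.v_zero (A : W.Ax b) (hb : b = 0) {x y : F} (hR : W.R x y) (hn : x ≠ y) :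
    W.v (W.s 0) x y = 0 := by
  have hk := A.k5
  have h := A.card_mul
  rw [hb, mul_zero] at h
  have hk' : (5 : ℝ) ≤ (k : ℝ) := by exact_mod_cast hk
  have hne : (k : ℝ) * ((k : ℝ) - 1) ≠ 0 := by
    apply mul_ne_zero <;> linarith
  have hs : ∑ p ∈ W.allGood, W.v (W.s 0) p.1 p.2 = 0 := by
    rcases mul_eq_zero.1 h.symm with h' | h'
    · exact absurd h' hne
    · exact h'
  rw [sum_eq_zero_iff_of_nonneg
    (fun p hp => A.nonneg _ _ (WSys.mem_allGood.1 hp).1 (WSys.mem_allGood.1 hp).2)] at hs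
  exact hs (x, y) (WSys.mem_allGood.2 ⟨hR, hn⟩)

theorem WSys.Ax.v_zero_conj (A : W.Ax b) (hb : b = 0) (g : Γ) {x y : F} (hR : W.R x y) (hn : x ≠ y) :
    W.v (g * W.s 0 * g⁻¹) x y = 0 := by
  have hn' : g⁻¹ • x ≠ g⁻¹ • y := fun h => hn (MulAction.injective _ h)
  have h := W.v_conj (W.s 0) g (g⁻¹ • x) (g⁻¹ • y) (W.R_smul g⁻¹ hR) hn'
  rw [smul_inv_smul, smul_inv_smul] at h
  rw [h]
  exact A.v_zero hb (W.R_smul g⁻¹ hR) hn'

theorem WSys.s_succ_eq_conj (W : WSys k Γ F) (i : ℕ) (hi : i + 2 < k) :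
    W.s (i + 1) = (W.s i * W.s (i + 1)) * W.s i * (W.s i * W.s (i + 1))⁻¹ := by
  rw [eq_mul_inv_iff_mul_eq, ← mul_assoc, ← W.braid i hi]

/-- if `b = 0`, the generators `s 0` and `s 2` act in the same way. -/
theorem WSys.Ax.s02 (A : W.Ax b) (hb : b = 0) (x : F) : W.s 2 • x = W.s 0 • x := by
  have hk := A.k5
  have hR : W.R x ((W.s 0)⁻¹ • W.s 2 • x) := by
    have h := W.R_smul (W.s 0)⁻¹ (W.R_s 2 x (by omega))
    rw [inv_smul_smul] at h
    exact W.R_symm h
  by_cases hx : x = (W.s 0)⁻¹ • W.s 2 • x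
  · have h := congrArg (fun z => W.s 0 • z) hx
    simp only [smul_inv_smul] at h
    exact h.symm
  · exfalso
    have h2 : ∃ g : Γ, W.s 2 = g * W.s 0 * g⁻¹ := by
      refine ⟨(W.s 1 * W.s 2) * (W.s 0 * W.s 1), ?_⟩
      have e1 := W.s_succ_eq_conj 1 (by omega)
      have e0 := W.s_succ_eq_conj 0 (by omega)
      simp only [zero_add, Nat.reduceAdd] at e0 e1
      calc W.s 2 = (W.s 1 * W.s 2) * W.s 1 * (W.s 1 * W.s 2)⁻¹ := e1
        _ = (W.s 1 * W.s 2) * ((W.s 0 * W.s 1) * W.s 0 * (W.s 0 * W.s 1)⁻¹) * (W.s 1 * W.s 2)⁻¹ := by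
            rw [← e0]
        _ = _ := by group
    obtain ⟨g, hg⟩ := h2
    rcases A.tr x with h | h | h
    · exact hx h.symm
    · rw [A.v_zero hb hR hx] at h
      exact lt_irrefl _ h
    · rw [hg] at h
      rw [hg] at hR hx
      rw [A.v_zero_conj hb g hR hx] at h
      exact lt_irrefl _ h

/-- conjugates: `s i` and `s j` act in the same way if `i + 2 ≤ j`. -/
theorem WSys.Ax.s_far (A : W.Ax b) (hb : b = 0) (i j : ℕ) (hij : i + 2 ≤ j) (hj : j + 1 < k) (x : F) :
    W.s j • x = W.s i • x := by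
  have hk := A.k5
  have step0 : ∀ j, 2 ≤ j → j + 1 < k → ∀ x : F, W.s j • x = W.s 0 • x := by
    intro j h2
    induction j, h2 using Nat.le_induction with
    | base => intro _ x; exact A.s02 hb x
    | succ j h2 ih =>
      intro hj x
      have e := W.s_succ_eq_conj j (by omega)
      have hc : W.s j * W.s (j + 1) * W.s 0 = W.s 0 * (W.s j * W.s (j + 1)) := by
        rw [mul_assoc, ← W.comm 0 (j + 1) (by omega) (by omega), ← mul_assoc,
          ← W.comm 0 j (by omega) (by omega), mul_assoc]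
      have e0 : W.s 0 = (W.s j * W.s (j + 1)) * W.s 0 * (W.s j * W.s (j + 1))⁻¹ := by
        rw [hc, mul_inv_cancel_right]
      rw [e]
      conv_rhs => rw [e0]
      rw [mul_smul, mul_smul, mul_smul (_ * W.s 0), mul_smul (W.s j * W.s (j + 1)) (W.s 0)]
      rw [ih (by omega)]
  have key : ∀ i, i + 2 ≤ j → ∀ x : F, W.s j • x = W.s i • x := by
    intro i
    induction i with
    | zero => intro h x; exact step0 j (by omega) hj x
    | succ i ih =>
      intro h x
      have e := W.s_succ_eq_conj i (by omega)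
      have hc : W.s i * W.s (i + 1) * W.s j = W.s j * (W.s i * W.s (i + 1)) := by
        rw [mul_assoc, W.comm (i + 1) j (by omega) (by omega), ← mul_assoc,
          W.comm i j (by omega) (by omega), mul_assoc]
      have e0 : W.s j = (W.s i * W.s (i + 1)) * W.s j * (W.s i * W.s (i + 1))⁻¹ := by
        rw [hc, mul_inv_cancel_right]
      rw [e]
      conv_lhs => rw [e0]
      rw [mul_smul, mul_smul, mul_smul (_ * W.s i), mul_smul (W.s i * W.s (i + 1)) (W.s i)]
      rw [ih (by omega)]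
  exact key i hij x

/-- if `b = 0`, all generators act in the same way. -/
theorem WSys.Ax.s_eq_zero (A : W.Ax b) (hb : b = 0) (i : ℕ) (hi : i + 1 < k) (x : F) :
    W.s i • x = W.s 0 • x := by
  have hk := A.k5
  rcases Nat.lt_or_ge i 2 with h | h
  · interval_cases i
    · rfl
    · rw [← A.s_far hb 1 3 (by omega) (by omega) x, A.s_far hb 0 3 (by omega) (by omega) x]
  · exact A.s_far hb 0 i (by omega) hi x

theorem WSys.Ax.s_eq_of_b_zero (A : W.Ax b) (hb : b = 0) (i j : ℕ) (hi : i + 1 < k) (hj : j + 1 < k)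
    (x : F) : W.s i • x = W.s j • x := by
  rw [A.s_eq_zero hb i hi, A.s_eq_zero hb j hj]

end LN6
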