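import Pool.Agent.Helper11.LN6.Rho
import Pool.Agent.Helper26.LN6.Vm

/-!
# LN6 leaf F, step f7 (MP_730da0_ag): the label of a nice class is equivariant, and the final step of leaf F
-/

open scoped Classical
open Finset

namespace LN6

namespace WSys

variable {k : ℕ} {Γ F : Type} [Group Γ] [MulAction Γ F] [Fintype F] {W : WSys k Γ F} {b : ℝ}

/-! ### nice elements -/

theorem Nice.smul_L (hk : 2 < k) {x : F} (hx : W.Nice x) {g : Γ} (hg : g ∈ W.L) : W.Nice (g • x) := by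
  refine ⟨?_, ?_⟩
  · rw [B_smul (W.L_commute_s0 hk hg).eq]
    exact hx.1
  · intro g' hg'
    rw [← mul_smul]
    exact hx.2 (g' * g) (mul_mem hg' hg)

theorem Ax.dich_of_E (A : W.Ax b) {x y : F} (hE : W.E (W.s 0) x y) (hx : W.Dich x) : W.Dich y := by
  unfold Dich at hx ⊢
  rw [← A.cl_eq W.arc_s0 hE]
  exact hx

theorem Ax.nice_of_E (A : W.Ax b) {x y : F} (hE : W.E (W.s 0) x y) (hx : W.Nice x) : W.Nice y := by
  have hk := A.k5
  refine ⟨fun h => hx.1 ?_, ?_⟩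
  · exact (A.B_iff_of_E W.arc_s0 hE).2 h
  · intro g hg
    refine A.dich_of_E ?_ (hx.2 g hg)
    exact (E_smul (W.L_commute_s0 (by omega) hg).eq).2 hE

/-- a nice class is contained in the union of the largest `s 2`-classes or disjoint from it -/
theorem Nice.B_s2 {x y : F} (hx : W.Nice x) (hE : W.E (W.s 0) x y) (h : x ∈ W.B (W.s 2)) :
    y ∈ W.B (W.s 2) := by
  have hd := hx.2 1 (one_mem _)
  rw [one_smul] at hd
  rcases hd with hd | hd
  · exact hd y (mem_cl.2 hE)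
  · exact absurd h (hd.1 x (self_mem_cl _ _))

/-- the same for a conjugate of `s 2` by an element of `L` -/
theorem Nice.B_conj_s2 (hk : 2 < k) {x y : F} (hx : W.Nice x) (hE : W.E (W.s 0) x y) {t : Γ} (ht : t ∈ W.L)
    (h : x ∈ W.B (t * W.s 2 * t⁻¹)) : y ∈ W.B (t * W.s 2 * t⁻¹) := by
  rw [B_conj'] at h ⊢
  exact (hx.smul_L hk (inv_mem ht)).B_s2 ((E_smul (W.L_commute_s0 hk (inv_mem ht)).eq).2 hE) h

/-- isolated: `s 2` acts as `s 0` -/
theorem Ax.isol_s2 (A : W.Ax b) {x : F} (hx : W.Nice x) (h : x ∉ W.B (W.s 2)) :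
    W.E (W.s 0) (W.s 0 • x) (W.s 2 • x) := by
  have hk := A.k5
  have hd := hx.2 1 (one_mem _)
  rw [one_smul] at hd
  have hR : W.R x ((W.s 0)⁻¹ • W.s 2 • x) := by
    have h := W.R_smul (W.s 0)⁻¹ (W.R_s 2 x (by omega))
    rw [inv_smul_smul] at h
    exact W.R_symm h
  have key : W.E (W.s 0) x ((W.s 0)⁻¹ • W.s 2 • x) := by
    rcases hd with hd | hd
    · exact absurd (hd x (self_mem_cl _ _)) h
    · by_contra hcon
      rcases A.tr x with h' | h' | h'
      · exact hcon (Or.inl h'.symm)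
      · exact hcon (Or.inr ⟨hR, h'⟩)
      · rw [hd.2 x (self_mem_cl _ _) _ hR (fun h => hcon (mem_cl.1 h))] at h'
        exact lt_irrefl _ h'
  have := (E_smul (g := W.s 0) (h := W.s 0) rfl).2 key
  rwa [smul_inv_smul] at this

theorem Ax.isol_conj (A : W.Ax b) {x : F} (hx : W.Nice x) {t : Γ} (ht : t ∈ W.L)
    (h : x ∉ W.B (t * W.s 2 * t⁻¹)) : W.E (W.s 0) (W.s 0 • x) ((t * W.s 2 * t⁻¹) • x) := by
  have hk := A.k5
  have hc := (W.L_commute_s0 (by omega) ht).eq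
  rw [B_conj'] at h
  have h1 := A.isol_s2 (hx.smul_L (by omega) (inv_mem ht)) h
  have h2 := (E_smul hc).2 h1
  have e1 : t • W.s 0 • t⁻¹ • x = W.s 0 • x := by
    rw [← mul_smul, ← mul_smul, hc]
    simp
  have e2 : t • W.s 2 • t⁻¹ • x = (t * W.s 2 * t⁻¹) • x := by
    rw [← mul_smul, ← mul_smul]
  rwa [e1, e2] at h2

/-- isolated from the side `a j` -/
theorem Ax.isol_a (A : W.Ax b) {x : F} (hx : W.Nice x) (j : ℕ) (h : x ∉ W.B (W.a j)) :
    W.E (W.s 0) (W.s 0 • x) (W.a j • x) :=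
  A.isol_conj hx (pow_mem W.rho_mem_L j) h

/-- the braid argument: `s 2` cannot keep a nice class in the largest `s 2`-class which is isolated from a
neighbouring side, before and after -/
theorem Ax.braid_side (A : W.Ax b) {x : F} (hx : W.Nice x) {t : Γ} (ht : t ∈ W.L)
    (hbr : W.s 2 * (t * W.s 2 * t⁻¹) * W.s 2 = (t * W.s 2 * t⁻¹) * W.s 2 * (t * W.s 2 * t⁻¹))
    (hx2 : x ∈ W.B (W.s 2)) (h1 : x ∉ W.B (t * W.s 2 * t⁻¹)) :
    W.s 2 • x ∈ W.B (t * W.s 2 * t⁻¹) := by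
  have hk := A.k5
  by_contra h2
  have hs2 : W.s 2 ∈ W.L := W.s_mem_L le_rfl (by omega)
  have hcL : t * W.s 2 * t⁻¹ ∈ W.L := mul_mem (mul_mem ht hs2) (inv_mem ht)
  have i1 := A.isol_conj hx ht h1
  have i2 := A.isol_conj (hx.smul_L (by omega) hs2) ht h2
  have c2 : W.s 2 * W.s 0 = W.s 0 * W.s 2 := (W.L_commute_s0 (by omega) hs2).eq
  have cc : (t * W.s 2 * t⁻¹) * W.s 0 = W.s 0 * (t * W.s 2 * t⁻¹) := (W.L_commute_s0 (by omega) hcL).eq
  have hconj : (W.s 2 * (t * W.s 2 * t⁻¹)) * W.s 2 * (W.s 2 * (t * W.s 2 * t⁻¹))⁻¹ = t * W.s 2 * t⁻¹ := by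
    rw [mul_inv_eq_iff_eq_mul, hbr, mul_assoc]
  have hBc : ∀ y z, W.Nice y → W.E (W.s 0) y z → y ∈ W.B (t * W.s 2 * t⁻¹) → z ∈ W.B (t * W.s 2 * t⁻¹) :=
    fun y z hy hE h => hy.B_conj_s2 (by omega) hE ht h
  generalize t * W.s 2 * t⁻¹ = c at *
  -- `s 2 x ~ s 0 x`
  have e1 : W.E (W.s 0) (W.s 0 • W.s 0 • W.s 2 • x) (c • W.s 2 • c • x) := by
    have a1 : W.E (W.s 0) (W.s 0 • W.s 2 • x) (W.s 2 • c • x) := by
      have := (E_smul c2).2 i1
      rwa [← mul_smul (W.s 2) (W.s 0), c2, mul_smul] at this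
    have a2 := (E_smul cc).2 a1
    have a3 := (E_smul (g := W.s 0) (h := W.s 0) rfl).2 i2
    rw [← mul_smul c (W.s 0), cc, mul_smul] at a2
    exact A.E_trans W.arc_s0 a3 a2
  have e2 : W.E (W.s 0) (W.s 0 • W.s 2 • W.s 2 • x) (W.s 2 • c • W.s 2 • x) := by
    have := (E_smul c2).2 i2
    rwa [← mul_smul (W.s 2) (W.s 0), c2, mul_smul] at this
  have e3 : W.s 2 • c • W.s 2 • x = c • W.s 2 • c • x := by
    have := congrArg (fun g => g • x) hbr
    simpa only [mul_smul] using this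
  rw [e3] at e2
  have e4 := A.E_trans W.arc_s0 e1 e2.symm
  rw [E_smul (g := W.s 0) (h := W.s 0) rfl, ← mul_smul (W.s 0) (W.s 2), ← c2, mul_smul, E_smul c2] at e4
  -- `s 2 c x ~ s 0 s 0 x`
  have e5 : W.E (W.s 0) (W.s 0 • W.s 0 • x) (W.s 2 • c • x) := by
    have a1 := (E_smul c2).2 i1
    rw [← mul_smul (W.s 2) (W.s 0), c2, mul_smul] at a1
    exact A.E_trans W.arc_s0 ((E_smul (g := W.s 0) (h := W.s 0) rfl).2 e4) a1
  have hB : (W.s 2 * c) • x ∈ W.B c := by
    have := (W.B_conj (W.s 2 * c) (W.s 2) x).2 hx2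
    rwa [hconj] at this
  rw [mul_smul] at hB
  have hB2 := hBc _ _ ((hx.smul_L (by omega) hcL).smul_L (by omega) hs2) e5.symm hB
  rw [B_smul cc.symm, B_smul cc.symm] at hB2
  exact h1 hB2

/-! ### equivariance of the label -/

theorem Ax.lab_equiv_of (A : W.Ax b) (l : F → ℕ) (h1 : ∀ x, W.Nice x → 2 ≤ l x ∧ l x < k)
    (hs : ∀ x, W.Nice x → l (W.s 0 • x) = l x)
    (hr : ∀ x, W.Nice x → l (W.rho • x) = if l x + 1 < k then l x + 1 else 2)
    (h2 : ∀ x, W.Nice x → (x ∈ W.B (W.s 2) ↔ l x = 2 ∨ l x = 3))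
    (he : ∀ x y, W.Nice x → W.E (W.s 0) x y → l y = l x) :
    ∀ g ∈ W.L, ∀ x, W.Nice x → l (g • x) = W.lab g (l x) := by
  have hk := A.k5
  have hs2 : W.s 2 ∈ W.L := W.s_mem_L le_rfl (by omega)
  have hrinv : ∀ x, W.Nice x → l (W.rho⁻¹ • x) = if l x = 2 then k - 1 else l x - 1 := by
    intro x hx
    have hx' := hx.smul_L (by omega) (inv_mem W.rho_mem_L)
    have a1 := hr _ hx'
    rw [smul_inv_smul] at a1
    have a2 := h1 _ hx'
    have a3 := h1 _ hx
    split_ifs at a1 ⊢ <;> omega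
  suffices H : ∀ g, g ∈ W.L → g ∈ W.L ∧ ∀ x, W.Nice x → l (g • x) = W.lab g (l x) from
    fun g hg => (H g hg).2
  intro g hg
  refine W.L_induction_rho (P := fun g => g ∈ W.L ∧ ∀ x, W.Nice x → l (g • x) = W.lab g (l x))
    ?_ ?_ ?_ ?_ ?_ ?_ hg
  · refine ⟨W.s0_mem_L, fun x hx => ?_⟩
    have a := h1 x hx
    rw [hs x hx, W.lab_s 0 (by omega), Equiv.swap_apply_of_ne_of_ne] <;> omega
  · refine ⟨W.rho_mem_L, fun x hx => ?_⟩
    have a := h1 x hx
    rw [hr x hx, W.lab_rho (by omega)]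
    split_ifs <;> omega
  · refine ⟨hs2, fun x hx => ?_⟩
    have a := h1 x hx
    rw [W.lab_s 2 (by omega)]
    by_cases hxB : x ∈ W.B (W.s 2)
    · have b1 := (h2 x hx).1 hxB
      have hx' := hx.smul_L (by omega) hs2
      have hx'B : W.s 2 • x ∈ W.B (W.s 2) := (B_smul rfl x).2 hxB
      have b2 := (h2 _ hx').1 hx'B
      have hne : l (W.s 2 • x) ≠ l x := by
        intro hcon
        rcases b1 with b1 | b1
        · -- side `a 1`
          have hB : ∀ y, W.Nice y → l y = 2 → y ∉ W.B (W.rho * W.s 2 * W.rho⁻¹) := by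
            intro y hy hly hyB
            rw [B_conj', h2 _ (hy.smul_L (by omega) (inv_mem W.rho_mem_L)), hrinv y hy, if_pos hly] at hyB
            omega
          have hbr : W.s 2 * (W.rho * W.s 2 * W.rho⁻¹) * W.s 2 =
              (W.rho * W.s 2 * W.rho⁻¹) * W.s 2 * (W.rho * W.s 2 * W.rho⁻¹) := by
            have := W.a_braid (by omega) 0
            rwa [W.a_succ 0, W.a_zero] at this
          exact hB _ hx' (by omega) (A.braid_side hx W.rho_mem_L hbr hxB (hB x hx b1))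
        · -- side `a (k-3)`
          have hB : ∀ y, W.Nice y → l y = 3 → y ∉ W.B (W.rho⁻¹ * W.s 2 * W.rho⁻¹⁻¹) := by
            intro y hy hly hyB
            rw [B_conj', inv_inv, h2 _ (hy.smul_L (by omega) W.rho_mem_L), hr y hy, hly] at hyB
            split_ifs at hyB <;> omega
          have hbr : W.s 2 * (W.rho⁻¹ * W.s 2 * W.rho⁻¹⁻¹) * W.s 2 =
              (W.rho⁻¹ * W.s 2 * W.rho⁻¹⁻¹) * W.s 2 * (W.rho⁻¹ * W.s 2 * W.rho⁻¹⁻¹) := by
            have := W.a_braid (by omega) (k - 3)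
            have e : k - 3 + 1 = k - 2 := by omega
            rw [e, W.a_period (by omega), W.a_last (by omega)] at this
            rw [inv_inv]
            exact this.symm
          exact hB _ hx' (by omega) (A.braid_side hx (inv_mem W.rho_mem_L) hbr hxB (hB x hx b1))
      rcases b1 with b1 | b1
      · rw [b1, Equiv.swap_apply_left]
        omega
      · rw [b1, Equiv.swap_apply_right]
        omega
    · have b1 : ¬ (l x = 2 ∨ l x = 3) := fun h => hxB ((h2 x hx).2 h)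
      have b2 := he _ _ (hx.smul_L (by omega) W.s0_mem_L) (A.isol_s2 hx hxB)
      rw [b2, hs x hx, Equiv.swap_apply_of_ne_of_ne] <;> omega
  · exact ⟨one_mem _, fun x _ => by rw [one_smul, map_one, Equiv.Perm.one_apply]⟩
  · intro x y hx hy
    refine ⟨mul_mem hx.1 hy.1, fun z hz => ?_⟩
    rw [mul_smul, hx.2 _ (hz.smul_L (by omega) hy.1), hy.2 z hz, map_mul, Equiv.Perm.mul_apply]
  · intro x hx
    refine ⟨inv_mem hx.1, fun z hz => ?_⟩
    have a := hx.2 _ (hz.smul_L (by omega) (inv_mem hx.1))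
    rw [smul_inv_smul] at a
    rw [a, map_inv]
    exact (Equiv.symm_apply_apply (W.lab x) _).symm

/-! ### the balls -/

theorem Q_smul {g : Γ} {m : ℕ} (h0 : g * W.s 0 = W.s 0 * g) (hT : g * W.T m = W.T m * g) (x : F) :
    g • x ∈ W.Q b m ↔ x ∈ W.Q b m := by
  have key : ∀ {g : Γ}, g * W.s 0 = W.s 0 * g → g * W.T m = W.T m * g → ∀ x, x ∈ W.Q b m →
      g • x ∈ W.Q b m := by
    intro g h0 hT x hx
    rcases hx with hx | ⟨y, hy, hR, hb⟩
    · exact Or.inl ((B_smul h0 x).2 hx)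
    · by_cases hxy : x = y
      · exact Or.inl ((B_smul h0 x).2 (hxy ▸ hy))
      · refine Or.inr ⟨g • y, (B_smul h0 y).2 hy, W.R_smul g hR, ?_⟩
        rw [W.v_smul hT.symm hR hxy]
        exact hb
  constructor
  · intro h
    have h0' : g⁻¹ * W.s 0 = W.s 0 * g⁻¹ := by
      rw [inv_mul_eq_iff_eq_mul, ← mul_assoc, h0]
      group
    have hT' : g⁻¹ * W.T m = W.T m * g⁻¹ := by
      rw [inv_mul_eq_iff_eq_mul, ← mul_assoc, hT]
      group
    have := key h0' hT' _ h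
    rwa [inv_smul_smul] at this
  · exact key h0 hT x

theorem Ax.Q_of_E (A : W.Ax b) {m : ℕ} (h2m : 2 ≤ m) (hm : m < k) (hQ : W.SQ b m) {x y : F}
    (hE : W.E (W.s 0) x y) (hy : y ∈ W.Q b m) : x ∈ W.Q b m := by
  by_contra hx
  rcases hE with hE | hE
  · exact hx (hE ▸ hy)
  · have hxy : x ≠ y := fun h => hx (h ▸ hy)
    have h0 := hQ.2.2.2 x y hx hy hE.1
    have := A.T_pos_of_s (m := m) (i := 0) (by omega) hm.le hE.1 hxy hE.2
    rw [h0] at this
    exact lt_irrefl _ this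

theorem Ax.Q_rho_pow (A : W.Ax b) (x : F) :
    (W.rho ^ (k - 2))⁻¹ • x ∈ W.Q b (k - 1) ↔ x ∈ W.Q b (k - 1) := by
  have hk := A.k5
  have e0 : Commute (W.rho ^ (k - 2)) (W.s 0) := (W.rho_commute_s0 (by omega)).pow_left _
  have eT : Commute (W.rho ^ (k - 2)) (W.T (k - 1)) :=
    (W.L_commute_rho_pow (by omega) (W.T_mem_L (k - 1) (by omega) (by omega))).symm
  exact Q_smul e0.inv_left.eq eT.inv_left.eq x

/-! ### end of leaf F -/

/-- the labels exist, if every nice class is outside exactly one of the balls (f5) and is contained in the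
largest `s 2`-class exactly if its point is an end point of the side `s 2` (f6). -/
theorem exists_lab_of (A : W.Ax b) (hQ : W.SQ b (k - 1))
    (h5 : ∀ x, W.Nice x → ∃ j, 1 ≤ j ∧ j ≤ k - 2 ∧ (W.rho ^ j)⁻¹ • x ∉ W.Q b (k - 1))
    (h5' : ∀ x, W.Nice x → ∀ i j, 1 ≤ i → i ≤ k - 2 → 1 ≤ j → j ≤ k - 2 →
      (W.rho ^ i)⁻¹ • x ∉ W.Q b (k - 1) → (W.rho ^ j)⁻¹ • x ∉ W.Q b (k - 1) → i = j)
    (h6 : ∀ x, W.Nice x → ∀ j, 1 ≤ j → j ≤ k - 2 → (W.rho ^ j)⁻¹ • x ∉ W.Q b (k - 1) →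
      (x ∈ W.B (W.s 2) ↔ j = 1 ∨ j = 2)) :
    ∃ l, W.Lab b l := by
  have hk := A.k5
  choose! J hJ1 hJ2 hJ3 using h5
  have huniq : ∀ x, W.Nice x → ∀ j, 1 ≤ j → j ≤ k - 2 → (W.rho ^ j)⁻¹ • x ∉ W.Q b (k - 1) → J x = j :=
    fun x hx j h1 h2 h3 => h5' x hx _ _ (hJ1 x hx) (hJ2 x hx) h1 h2 (hJ3 x hx) h3
  have hrL : ∀ j : ℕ, (W.rho ^ j)⁻¹ ∈ W.L := fun j => inv_mem (pow_mem W.rho_mem_L j)
  have hE : ∀ x y, W.Nice x → W.E (W.s 0) x y → J y = J x := by
    intro x y hx hE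
    refine huniq y (A.nice_of_E hE hx) _ (hJ1 x hx) (hJ2 x hx) fun h => hJ3 x hx ?_
    exact A.Q_of_E (by omega) (by omega) hQ
      ((E_smul (W.L_commute_s0 (by omega) (hrL _)).eq).2 hE) h
  have hs : ∀ x, W.Nice x → J (W.s 0 • x) = J x := by
    intro x hx
    refine huniq _ (hx.smul_L (by omega) W.s0_mem_L) _ (hJ1 x hx) (hJ2 x hx) fun h => hJ3 x hx ?_
    rw [← mul_smul, (W.L_commute_s0 (by omega) (hrL (J x))).eq, mul_smul] at h
    exact (Q_smul rfl (W.T_commute_s (k - 1) 0 (by omega) (by omega) (by omega)).symm.eq _).1 h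
  have hr : ∀ x, W.Nice x → J (W.rho • x) = if J x + 1 ≤ k - 2 then J x + 1 else 1 := by
    intro x hx
    have a1 := hJ1 x hx
    have a2 := hJ2 x hx
    have hx' := hx.smul_L (by omega) W.rho_mem_L
    split_ifs with h
    · refine huniq _ hx' _ (by omega) h ?_
      rw [pow_succ', mul_inv_rev, mul_smul, inv_smul_smul]
      exact hJ3 x hx
    · refine huniq _ hx' _ le_rfl (by omega) ?_
      rw [pow_one, inv_smul_smul]
      have e : J x = k - 2 := by omega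
      have := hJ3 x hx
      rwa [e, A.Q_rho_pow] at this
  refine ⟨fun x => J x + 1, ?_⟩
  have hlab := A.lab_equiv_of (fun x => J x + 1)
    (fun x hx => by have a1 := hJ1 x hx; have a2 := hJ2 x hx; constructor <;> omega)
    (fun x hx => by simp only [hs x hx])
    (fun x hx => by
      simp only [hr x hx]
      have a1 := hJ1 x hx
      have a2 := hJ2 x hx
      split_ifs <;> omega)
    (fun x hx => by
      rw [h6 x hx (J x) (hJ1 x hx) (hJ2 x hx) (hJ3 x hx)]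
      constructor <;> rintro (h | h) <;> [left; right; left; right] <;> omega)
    (fun x y hx h => by simp only [hE x y hx h])
  intro x hx
  have a1 := hJ1 x hx
  have a2 := hJ2 x hx
  beta_reduce
  refine ⟨⟨by omega, by omega⟩, fun g hg => hlab g hg x hx, ?_, ?_, fun y h => by rw [hE x y hx h]⟩
  · rw [← A.Q_rho_pow x]
    constructor
    · intro h
      have := huniq x hx (k - 2) (by omega) le_rfl h
      omega
    · intro h
      have e : J x = k - 2 := by omega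
      have := hJ3 x hx
      rwa [e] at this
  · rw [h6 x hx (J x) a1 a2 (hJ3 x hx)]
    constructor <;> rintro (h | h) <;> [left; right; left; right] <;> omega

end WSys

end LN6
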